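import Mathlib
import Pool.Agent.LibPadicCubic.Lower12
import Pool.Agent.LibCubicLines.Upper13

namespace Pool.Agent.Results.MP_35f46d_nt.NEqTwelve

/-- The hypersurface `F = 0` contains a rational line: there are linearly independent `u`, `w`
with `F (s u + t w) = 0` for all `s`, `t`. -/
def HasRationalLine (p : ℕ) [Fact p.Prime] (n : ℕ) (F : MvPolynomial (Fin n) ℚ_[p]) : Prop :=
  ∃ u w : Fin n → ℚ_[p], LinearIndependent ℚ_[p] ![u, w] ∧
    ∀ s t : ℚ_[p], MvPolynomial.eval (s • u + t • w) F = 0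

/-- For every prime `p` the largest number of variables of a cubic form over `ℚ_[p]` whose
hypersurface contains no rational line is 12. -/
theorem result (p : ℕ) [Fact p.Prime] :
    IsGreatest {n : ℕ | ∃ F : MvPolynomial (Fin n) ℚ_[p],
      F ≠ 0 ∧ F.IsHomogeneous 3 ∧ ¬ HasRationalLine p n F} 12 := by
  refine ⟨?_, ?_⟩
  · obtain ⟨F, h1, h2, h3⟩ := Pool.Agent.LibPadicCubic.exists_twelve p
    exact ⟨F, h2, h1, h3⟩
  · rintro n ⟨F, h0, hF, hno⟩
    by_contra hn
    exact hno (Pool.Agent.LibCubicLines.exists_line_of_le p (by omega) F hF)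

end Pool.Agent.Results.MP_35f46d_nt.NEqTwelve
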